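import Mathlib

namespace Pool.Agent.Results.MP_85e029_nt.NotRelativelyDense

open Finset Complex

/-- `X m q`: all sums `a₀ + a₁ q + ... + aₙ qⁿ` with digits `a_j ∈ {0, ..., m}`. -/
def X (m : ℕ) (q : ℂ) : Set ℂ :=
  {z | ∃ (n : ℕ) (a : ℕ → ℕ), (∀ j, a j ≤ m) ∧ z = ∑ j ∈ range (n + 1), (a j : ℂ) * q ^ j}

/-- `S` is relatively dense in `ℂ`: for some `R > 0` every closed disc of radius `R` meets `S`. -/
def RelativelyDense (S : Set ℂ) : Prop :=
  ∃ R : ℝ, 0 < R ∧ ∀ c : ℂ, ∃ z ∈ S, z ∈ Metric.closedBall c R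

section

variable {γ : ℂ} {m J : ℕ}

lemma re_nonneg_up (hre : ∀ j ≤ J, 0 ≤ (γ ^ j).re) {N j : ℕ} (h1 : N ≤ j) (h2 : j ≤ N + J) :
    0 ≤ (γ ^ j * (starRingEnd ℂ) (γ ^ N)).re := by
  obtain ⟨k, rfl⟩ := Nat.exists_eq_add_of_le h1
  have : γ ^ (N + k) * (starRingEnd ℂ) (γ ^ N) = ((‖γ ^ N‖ ^ 2 : ℝ) : ℂ) * γ ^ k := by
    rw [pow_add, mul_right_comm, Complex.mul_conj, Complex.normSq_eq_norm_sq]
  rw [this, Complex.re_ofReal_mul]
  exact mul_nonneg (by positivity) (hre k (by omega))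

lemma re_nonneg_down (hre : ∀ j ≤ J, 0 ≤ (γ ^ j).re) {N j : ℕ} (h1 : j ≤ N) (h2 : N ≤ j + J) :
    0 ≤ (γ ^ j * (starRingEnd ℂ) (γ ^ N)).re := by
  have := re_nonneg_up hre h1 h2
  have h3 : (γ ^ j * (starRingEnd ℂ) (γ ^ N)).re = (γ ^ N * (starRingEnd ℂ) (γ ^ j)).re := by
    simp only [Complex.mul_re, Complex.conj_re, Complex.conj_im]
    ring
  rw [h3]; exact this

/-- termwise lower bound -/
lemma lower (hre : ∀ j ≤ J, 0 ≤ (γ ^ j).re) {N n : ℕ} (hn : n ≤ N + J + 1) (a : ℕ → ℕ)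
    (ha : ∀ j, a j ≤ m) :
    -((m : ℝ) * ‖γ‖ ^ N * ∑ j ∈ range (N - J), ‖γ‖ ^ j) ≤
      ∑ j ∈ range n, (a j : ℝ) * (γ ^ j * (starRingEnd ℂ) (γ ^ N)).re := by
  have hterm : ∀ j ∈ range n, (if j < N - J then -((m : ℝ) * ‖γ‖ ^ N * ‖γ‖ ^ j) else 0) ≤
      (a j : ℝ) * (γ ^ j * (starRingEnd ℂ) (γ ^ N)).re := by
    intro j hj
    rw [mem_range] at hj
    split_ifs with h
    · have h1 : |(γ ^ j * (starRingEnd ℂ) (γ ^ N)).re| ≤ ‖γ‖ ^ j * ‖γ‖ ^ N := by
        refine (Complex.abs_re_le_norm _).trans ?_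
        rw [norm_mul, Complex.norm_conj, norm_pow, norm_pow]
      have h2 : -(‖γ‖ ^ j * ‖γ‖ ^ N) ≤ (γ ^ j * (starRingEnd ℂ) (γ ^ N)).re := by
        have := neg_abs_le (γ ^ j * (starRingEnd ℂ) (γ ^ N)).re
        linarith
      have h3 : (a j : ℝ) ≤ m := by exact_mod_cast ha j
      have h4 : 0 ≤ (a j : ℝ) := Nat.cast_nonneg _
      have h5 : 0 ≤ ‖γ‖ ^ j * ‖γ‖ ^ N := by positivity
      nlinarith
    · apply mul_nonneg (Nat.cast_nonneg _)
      rcases le_total j N with h1 | h1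
      · exact re_nonneg_down hre h1 (by omega)
      · exact re_nonneg_up hre h1 (by omega)
  refine le_trans ?_ (Finset.sum_le_sum hterm)
  rw [← Finset.sum_filter]
  rw [Finset.mul_sum, ← Finset.sum_neg_distrib]
  have hsub : (range n).filter (fun j => j < N - J) ⊆ range (N - J) := by
    intro j hj
    rw [mem_filter] at hj
    exact mem_range.2 hj.2
  have := Finset.sum_le_sum_of_subset_of_nonneg (f := fun j => (m : ℝ) * ‖γ‖ ^ N * ‖γ‖ ^ j) hsub
    (fun j _ _ => by positivity)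
  rw [Finset.sum_neg_distrib, Finset.sum_neg_distrib]
  linarith

lemma geom_bound (hr : 1 < ‖γ‖) (h1 : (m : ℝ) ≤ (‖γ‖ - 1) * ‖γ‖ ^ J / 2) (N : ℕ) :
    (m : ℝ) * ‖γ‖ ^ N * ∑ j ∈ range (N - J), ‖γ‖ ^ j < ‖γ‖ ^ N * ‖γ‖ ^ N / 2 := by
  set r := ‖γ‖ with hrdef
  have hrpos : 0 < r := by linarith
  have hN : 0 < r ^ N := by positivity
  rcases Nat.lt_or_ge N J with h | h
  · rw [Nat.sub_eq_zero_of_le h.le]
    simp only [range_zero, sum_empty, mul_zero]
    positivity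
  · have hg : (∑ j ∈ range (N - J), r ^ j) * (r - 1) = r ^ (N - J) - 1 := geom_sum_mul r (N - J)
    have hs : 0 ≤ ∑ j ∈ range (N - J), r ^ j := Finset.sum_nonneg (fun j _ => by positivity)
    have hJ : 0 < r ^ J := by positivity
    have h2 : (m : ℝ) * ∑ j ∈ range (N - J), r ^ j ≤ r ^ J * (r ^ (N - J) - 1) / 2 := by
      calc (m : ℝ) * ∑ j ∈ range (N - J), r ^ j
          ≤ ((r - 1) * r ^ J / 2) * ∑ j ∈ range (N - J), r ^ j := mul_le_mul_of_nonneg_right h1 hs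
        _ = r ^ J * ((∑ j ∈ range (N - J), r ^ j) * (r - 1)) / 2 := by ring
        _ = r ^ J * (r ^ (N - J) - 1) / 2 := by rw [hg]
    have h3 : r ^ J * r ^ (N - J) = r ^ N := by rw [← pow_add]; congr 1; omega
    have h4 : (m : ℝ) * ∑ j ∈ range (N - J), r ^ j < r ^ N / 2 := by nlinarith
    calc (m : ℝ) * r ^ N * ∑ j ∈ range (N - J), r ^ j
        = r ^ N * ((m : ℝ) * ∑ j ∈ range (N - J), r ^ j) := by ring
      _ < r ^ N * (r ^ N / 2) := mul_lt_mul_of_pos_left h4 hN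
      _ = r ^ N * r ^ N / 2 := by ring

lemma re_sum (a : ℕ → ℕ) (n N : ℕ) :
    ((∑ j ∈ range n, (a j : ℂ) * γ ^ j) * (starRingEnd ℂ) (γ ^ N)).re =
      ∑ j ∈ range n, (a j : ℝ) * (γ ^ j * (starRingEnd ℂ) (γ ^ N)).re := by
  rw [Finset.sum_mul, Complex.re_sum]
  refine Finset.sum_congr rfl fun j _ => ?_
  rw [mul_assoc, ← Complex.ofReal_natCast, Complex.re_ofReal_mul]

/-- The key estimate: `X m γ` misses the disc of radius `‖γ‖ ^ N / 2` around `-γ ^ N`. -/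
lemma key (hr : 1 < ‖γ‖) (hre : ∀ j ≤ J, 0 ≤ (γ ^ j).re)
    (h1 : (m : ℝ) ≤ (‖γ‖ - 1) * ‖γ‖ ^ J / 2) (h2 : 3 ≤ ‖γ‖ ^ (J + 1)) (N : ℕ) (a : ℕ → ℕ)
    (ha : ∀ j, a j ≤ m) (n : ℕ) :
    ‖γ‖ ^ N / 2 < ‖(∑ j ∈ range n, (a j : ℂ) * γ ^ j) + γ ^ N‖ := by
  have hrpos : 0 < ‖γ‖ := by linarith
  have hNpos : 0 < ‖γ‖ ^ N := by positivity
  induction n with
  | zero =>
    simp only [range_zero, sum_empty, zero_add, norm_pow]
    linarith
  | succ n ih =>
    by_cases hn : n + 1 ≤ N + J + 1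
    · have h3 := lower hre hn a ha
      have h4 := geom_bound hr h1 N
      rw [← re_sum] at h3
      have h5 : (((∑ j ∈ range (n + 1), (a j : ℂ) * γ ^ j) + γ ^ N) *
          (starRingEnd ℂ) (γ ^ N)).re =
          ((∑ j ∈ range (n + 1), (a j : ℂ) * γ ^ j) * (starRingEnd ℂ) (γ ^ N)).re +
            ‖γ‖ ^ N * ‖γ‖ ^ N := by
        rw [add_mul, Complex.add_re, Complex.mul_conj, Complex.normSq_eq_norm_sq,
          Complex.ofReal_re, norm_pow, sq]
      have h6 : (((∑ j ∈ range (n + 1), (a j : ℂ) * γ ^ j) + γ ^ N) *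
          (starRingEnd ℂ) (γ ^ N)).re ≤
          ‖(∑ j ∈ range (n + 1), (a j : ℂ) * γ ^ j) + γ ^ N‖ * ‖γ‖ ^ N := by
        refine (Complex.re_le_norm _).trans ?_
        rw [norm_mul, Complex.norm_conj, norm_pow]
      by_contra hcon
      push Not at hcon
      have h7 := mul_le_mul_of_nonneg_right hcon hNpos.le
      linarith
    · by_cases han : a n = 0
      · rw [Finset.sum_range_succ, han]
        simpa using ih
      · have h3 := lower (m := m) hre (N := n) (n := n) (by omega) a ha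
        have h4 := geom_bound hr h1 n
        rw [← re_sum] at h3
        have han1 : (1 : ℝ) ≤ a n := by exact_mod_cast Nat.one_le_iff_ne_zero.2 han
        have h5 : ((∑ j ∈ range (n + 1), (a j : ℂ) * γ ^ j) * (starRingEnd ℂ) (γ ^ n)).re =
            ((∑ j ∈ range n, (a j : ℂ) * γ ^ j) * (starRingEnd ℂ) (γ ^ n)).re +
              a n * (‖γ‖ ^ n * ‖γ‖ ^ n) := by
          rw [Finset.sum_range_succ, add_mul, Complex.add_re, mul_assoc, Complex.mul_conj,
            Complex.normSq_eq_norm_sq, norm_pow, ← Complex.ofReal_natCast, Complex.re_ofReal_mul,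
            Complex.ofReal_re, sq]
        have h6 : ((∑ j ∈ range (n + 1), (a j : ℂ) * γ ^ j) * (starRingEnd ℂ) (γ ^ n)).re ≤
            ‖∑ j ∈ range (n + 1), (a j : ℂ) * γ ^ j‖ * ‖γ‖ ^ n := by
          refine (Complex.re_le_norm _).trans ?_
          rw [norm_mul, Complex.norm_conj, norm_pow]
        have hnpos : 0 < ‖γ‖ ^ n := by positivity
        have h7 : ‖γ‖ ^ n / 2 < ‖∑ j ∈ range (n + 1), (a j : ℂ) * γ ^ j‖ := by
          by_contra hcon
          push Not at hcon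
          have h8 := mul_le_mul_of_nonneg_right hcon hnpos.le
          have h9 : ‖γ‖ ^ n * ‖γ‖ ^ n ≤ a n * (‖γ‖ ^ n * ‖γ‖ ^ n) := by
            have : 0 < ‖γ‖ ^ n * ‖γ‖ ^ n := by positivity
            nlinarith
          linarith
        have h10 : ‖γ‖ ^ N * 3 ≤ ‖γ‖ ^ n := by
          have h11 : ‖γ‖ ^ (N + (J + 1)) ≤ ‖γ‖ ^ n := pow_le_pow_right₀ hr.le (by omega)
          rw [pow_add] at h11
          nlinarith
        have h12 : ‖∑ j ∈ range (n + 1), (a j : ℂ) * γ ^ j‖ ≤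
            ‖(∑ j ∈ range (n + 1), (a j : ℂ) * γ ^ j) + γ ^ N‖ + ‖γ‖ ^ N := by
          have := norm_sub_le ((∑ j ∈ range (n + 1), (a j : ℂ) * γ ^ j) + γ ^ N) (γ ^ N)
          rw [add_sub_cancel_right, norm_pow] at this
          exact this
        linarith

/-- The criterion. -/
theorem not_relativelyDense (hr : 1 < ‖γ‖) (hre : ∀ j ≤ J, 0 ≤ (γ ^ j).re)
    (h1 : (m : ℝ) ≤ (‖γ‖ - 1) * ‖γ‖ ^ J / 2) (h2 : 3 ≤ ‖γ‖ ^ (J + 1)) :
    ¬ RelativelyDense (X m γ) := by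
  rintro ⟨R, hR, h⟩
  obtain ⟨N, hN⟩ := pow_unbounded_of_one_lt (2 * R) hr
  obtain ⟨z, ⟨n, a, ha, rfl⟩, hz⟩ := h (-γ ^ N)
  have h3 := key hr hre h1 h2 N a ha (n + 1)
  rw [Metric.mem_closedBall, dist_eq_norm, sub_neg_eq_add] at hz
  linarith

end


/-- `γ` is a complex Pisot unit: a non-real algebraic integer with `|γ| > 1` whose inverse is an
algebraic integer and all of whose conjugates other than `γ` and `conj γ` have modulus `< 1`. -/
def IsComplexPisotUnit (γ : ℂ) : Prop :=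
  γ.im ≠ 0 ∧ 1 < ‖γ‖ ∧ IsIntegral ℤ γ ∧ IsIntegral ℤ γ⁻¹ ∧
    ∀ z : ℂ, Polynomial.aeval z (minpoly ℚ γ) = 0 → z = γ ∨ z = (starRingEnd ℂ) γ ∨ ‖z‖ < 1

/-- Every modulus and every digit bound fails close to the positive real axis. -/
lemma polar (r : ℝ) (hr : 1 < r) (m : ℕ) : ∃ θ₀ : ℝ, 0 < θ₀ ∧ ∀ θ : ℝ, 0 < θ → θ < θ₀ →
    ((r : ℂ) * exp (θ * I)).im ≠ 0 ∧ ‖(r : ℂ) * exp (θ * I)‖ = r ∧
      ¬ RelativelyDense (X m ((r : ℂ) * exp (θ * I))) := by
  have hrpos : 0 < r := by linarith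
  obtain ⟨J₁, hJ₁⟩ := pow_unbounded_of_one_lt (2 * m / (r - 1)) hr
  obtain ⟨J₂, hJ₂⟩ := pow_unbounded_of_one_lt 3 hr
  set J := J₁ + J₂ with hJ
  have hr1 : 0 < r - 1 := by linarith
  have hm : (m : ℝ) ≤ (r - 1) * r ^ J / 2 := by
    have h3 : r ^ J₁ ≤ r ^ J := pow_le_pow_right₀ hr.le (by omega)
    have h4 : 2 * (m : ℝ) < r ^ J₁ * (r - 1) := by
      rwa [div_lt_iff₀ hr1] at hJ₁
    nlinarith
  have h3J : 3 ≤ r ^ (J + 1) := by
    have h3 : r ^ J₂ ≤ r ^ (J + 1) := pow_le_pow_right₀ hr.le (by omega)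
    linarith
  have hpi := Real.pi_pos
  refine ⟨Real.pi / 2 / (J + 1), by positivity, ?_⟩
  intro θ hθ hθ0
  have hJpos : (0 : ℝ) < (J : ℝ) + 1 := by positivity
  rw [lt_div_iff₀ hJpos] at hθ0
  have hnorm : ‖(r : ℂ) * exp (θ * I)‖ = r := by
    rw [norm_mul, Complex.norm_exp_ofReal_mul_I, Complex.norm_real, Real.norm_eq_abs,
      abs_of_pos hrpos, mul_one]
  have hθpi : θ < Real.pi := by
    have : θ * 1 ≤ θ * ((J : ℝ) + 1) := by
      apply mul_le_mul_of_nonneg_left _ hθ.le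
      have : (0 : ℝ) ≤ J := Nat.cast_nonneg _
      linarith
    linarith
  refine ⟨?_, hnorm, ?_⟩
  · rw [Complex.im_ofReal_mul, Complex.exp_ofReal_mul_I_im]
    exact (mul_pos hrpos (Real.sin_pos_of_pos_of_lt_pi hθ hθpi)).ne'
  · apply not_relativelyDense (J := J)
    · rw [hnorm]; exact hr
    · intro j hj
      have h5 : ((r : ℂ) * exp (θ * I)) ^ j = ((r ^ j : ℝ) : ℂ) * exp (((j * θ : ℝ) : ℂ) * I) := by
        rw [mul_pow, ← Complex.exp_nat_mul]
        push_cast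
        ring_nf
      rw [h5, Complex.re_ofReal_mul, Complex.exp_ofReal_mul_I_re]
      apply mul_nonneg (by positivity)
      have hj' : (j : ℝ) ≤ J := by exact_mod_cast hj
      have hj0 : (0 : ℝ) ≤ j := Nat.cast_nonneg _
      apply Real.cos_nonneg_of_neg_pi_div_two_le_of_le
      · have : 0 ≤ (j : ℝ) * θ := by positivity
        linarith
      · nlinarith
    · rw [hnorm]; exact hm
    · rw [hnorm]; exact h3J

/-- A complex Pisot unit for which all `X m γ` with `m ≤ 300` fail, although `|γ|² - 1 < 122`. -/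
lemma pisot : ∃ γ : ℂ, IsComplexPisotUnit γ ∧ ‖γ‖ ^ 2 - 1 < 122 ∧
    ∀ m : ℕ, m ≤ 300 → ¬ RelativelyDense (X m γ) := by
  -- a root of `z ^ 2 - (10 + i) z + 1`
  obtain ⟨s, hs⟩ := IsAlgClosed.exists_pow_nat_eq (((10 : ℂ) + I) ^ 2 - 4) (n := 2) (by norm_num)
  have hroot : ∃ γ : ℂ, γ ^ 2 - (10 + I) * γ + 1 = 0 ∧ 1 ≤ ‖γ‖ := by
    set z := ((10 : ℂ) + I + s) / 2 with hz
    have hz1 : z ^ 2 - (10 + I) * z + 1 = 0 := by
      rw [hz]
      linear_combination hs / 4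
    have hz0 : z ≠ 0 := by
      intro h0
      rw [h0] at hz1
      norm_num at hz1
    rcases le_total 1 ‖z‖ with h | h
    · exact ⟨z, hz1, h⟩
    · refine ⟨z⁻¹, ?_, ?_⟩
      · field_simp
        linear_combination hz1
      · rw [norm_inv]
        exact (one_le_inv₀ (norm_pos_iff.2 hz0)).2 h
  obtain ⟨γ, hγ, hγ1⟩ := hroot
  have hγ0 : γ ≠ 0 := by
    intro h0
    rw [h0] at hγ
    norm_num at hγ
  set u := γ⁻¹ with hu
  have huγ : u * γ = 1 := inv_mul_cancel₀ hγ0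
  have hsum : γ = 10 + I - u := by
    have h1 : u * (γ ^ 2 - (10 + I) * γ + 1) = 0 := by rw [hγ, mul_zero]
    linear_combination h1 + (10 + I - γ) * huγ
  have hne1 : ‖γ‖ ≠ 1 := by
    intro h1
    have h2 : u = (starRingEnd ℂ) γ := by
      rw [hu, Complex.inv_def, Complex.normSq_eq_norm_sq, h1]
      simp
    have h3 := congrArg Complex.im hsum
    rw [h2] at h3
    simp at h3
  have hγ1' : 1 < ‖γ‖ := lt_of_le_of_ne hγ1 (Ne.symm hne1)
  have hunorm : ‖u‖ < 1 := by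
    rw [hu, norm_inv]
    exact inv_lt_one_of_one_lt₀ hγ1'
  have hure : |u.re| < 1 := lt_of_le_of_lt (Complex.abs_re_le_norm u) hunorm
  have huim : |u.im| < 1 := lt_of_le_of_lt (Complex.abs_im_le_norm u) hunorm
  rw [abs_lt] at hure huim
  have hre : γ.re = 10 - u.re := by
    have := congrArg Complex.re hsum
    simpa using this
  have him : γ.im = 1 - u.im := by
    have := congrArg Complex.im hsum
    simpa using this
  have hnormlow : 9 < ‖γ‖ := by
    have := Complex.re_le_norm γ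
    linarith
  have hnormup : ‖γ‖ < 11.06 := by
    have h1 : ‖(10 : ℂ) + I‖ ≤ 10.05 := by
      rw [Complex.norm_def, Complex.normSq_apply]
      simp only [Complex.add_re, Complex.add_im, Complex.I_re, Complex.I_im]
      norm_num
      rw [Real.sqrt_le_left (by norm_num)]
      norm_num
    have h2 : ‖γ‖ ≤ ‖(10 : ℂ) + I‖ + ‖u‖ := by
      conv_lhs => rw [hsum]
      exact norm_sub_le _ _
    linarith
  have hP : ∀ z : ℂ, Polynomial.aeval z (Polynomial.X ^ 4 - 20 * Polynomial.X ^ 3 +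
      103 * Polynomial.X ^ 2 - 20 * Polynomial.X + 1 : Polynomial ℚ) =
      (z ^ 2 - (10 + I) * z + 1) * (z ^ 2 - (10 - I) * z + 1) := by
    intro z
    simp only [map_sub, map_add, map_mul, map_pow, Polynomial.aeval_X, map_ofNat, map_one]
    linear_combination (z ^ 2) * Complex.I_sq
  refine ⟨γ, ⟨?_, hγ1', ?_, ?_, ?_⟩, ?_, ?_⟩
  · rw [him]; linarith
  · refine ⟨Polynomial.X ^ 4 - 20 * Polynomial.X ^ 3 +
      103 * Polynomial.X ^ 2 - 20 * Polynomial.X + 1, ?_, ?_⟩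
    · monicity!
    · simp only [Polynomial.eval₂_sub, Polynomial.eval₂_add, Polynomial.eval₂_mul,
        Polynomial.eval₂_pow, Polynomial.eval₂_X, Polynomial.eval₂_ofNat, Polynomial.eval₂_one]
      linear_combination (γ ^ 2) * Complex.I_sq + (γ ^ 2 - (10 - I) * γ + 1) * hγ
  · refine ⟨Polynomial.X ^ 4 - 20 * Polynomial.X ^ 3 +
      103 * Polynomial.X ^ 2 - 20 * Polynomial.X + 1, ?_, ?_⟩
    · monicity!
    · simp only [Polynomial.eval₂_sub, Polynomial.eval₂_add, Polynomial.eval₂_mul,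
        Polynomial.eval₂_pow, Polynomial.eval₂_X, Polynomial.eval₂_ofNat, Polynomial.eval₂_one]
      have hu1 : u ^ 2 - (10 + I) * u + 1 = 0 := by
        have h1 : u ^ 2 * (γ ^ 2 - (10 + I) * γ + 1) = 0 := by rw [hγ, mul_zero]
        linear_combination h1 - (u * γ + 1 - (10 + I) * u) * huγ
      linear_combination (u ^ 2) * Complex.I_sq + (u ^ 2 - (10 - I) * u + 1) * hu1
  · intro z hz
    have hdvd : minpoly ℚ γ ∣ (Polynomial.X ^ 4 - 20 * Polynomial.X ^ 3 +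
      103 * Polynomial.X ^ 2 - 20 * Polynomial.X + 1 : Polynomial ℚ) := by
      apply minpoly.dvd
      rw [hP, hγ, zero_mul]
    obtain ⟨Q, hQ⟩ := hdvd
    have h0 : (z ^ 2 - (10 + I) * z + 1) * (z ^ 2 - (10 - I) * z + 1) = 0 := by
      rw [← hP, hQ, map_mul, hz, zero_mul]
    rcases mul_eq_zero.1 h0 with h1 | h1
    · -- z is `γ` or `u`
      have h2 : (z - γ) * (z - u) = 0 := by
        linear_combination h1 - z * hsum + huγ
      rcases mul_eq_zero.1 h2 with h3 | h3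
      · exact Or.inl (sub_eq_zero.1 h3)
      · right; right
        rw [sub_eq_zero.1 h3]; exact hunorm
    · have hc : (starRingEnd ℂ) γ = 10 - I - (starRingEnd ℂ) u := by
        have h4 := congrArg (starRingEnd ℂ) hsum
        rw [map_sub, map_add, Complex.conj_I] at h4
        rw [h4]
        have : (starRingEnd ℂ) (10 : ℂ) = 10 := Complex.conj_ofNat 10
        rw [this]; ring
      have hcu : (starRingEnd ℂ) u * (starRingEnd ℂ) γ = 1 := by
        rw [← map_mul, huγ, map_one]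
      have h2 : (z - (starRingEnd ℂ) γ) * (z - (starRingEnd ℂ) u) = 0 := by
        linear_combination h1 - z * hc + hcu
      rcases mul_eq_zero.1 h2 with h3 | h3
      · exact Or.inr (Or.inl (sub_eq_zero.1 h3))
      · right; right
        rw [sub_eq_zero.1 h3, Complex.norm_conj]; exact hunorm
  · nlinarith [norm_nonneg γ]
  · intro m hm
    apply not_relativelyDense (J := 2) hγ1'
    · intro j hj
      interval_cases j
      · simp
      · rw [pow_one, hre]; linarith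
      · rw [sq, Complex.mul_re, hre, him]; nlinarith
    · have hm' : (m : ℝ) ≤ 300 := by exact_mod_cast hm
      have : (81 : ℝ) ≤ ‖γ‖ ^ 2 := by nlinarith
      nlinarith
    · have : (9 : ℝ) ^ 3 ≤ ‖γ‖ ^ 3 := pow_le_pow_left₀ (by norm_num) hnormlow.le 3
      norm_num at this ⊢
      linarith

/-- **Main theorem**: the answer to Q1 is negative, also for complex Pisot units. -/
theorem result :
    (∀ r : ℝ, 1 < r → ∀ m : ℕ, ∃ θ₀ : ℝ, 0 < θ₀ ∧ ∀ θ : ℝ, 0 < θ → θ < θ₀ →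
      ((r : ℂ) * exp (θ * I)).im ≠ 0 ∧ ‖(r : ℂ) * exp (θ * I)‖ = r ∧
        ¬ RelativelyDense (X m ((r : ℂ) * exp (θ * I)))) ∧
    (∃ γ : ℂ, IsComplexPisotUnit γ ∧ ‖γ‖ ^ 2 - 1 < 122 ∧
      ∀ m : ℕ, m ≤ 300 → ¬ RelativelyDense (X m γ)) :=
  ⟨polar, pisot⟩

end Pool.Agent.Results.MP_85e029_nt.NotRelativelyDense
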